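import Mathlib
import Pool.Agent.Lib.MP_2fb4be_al.NF

/-!
If an automatic group `G` acts by affine maps on a number field and a normal subgroup `A` acts
faithfully by translations, then the centraliser of `A` has finite index in `G`.
-/

set_option autoImplicit false

namespace Pool.Agent.Results.MP_2fb4be_al.AffineNormal

open Pool.Agent.Lib.MP_2fb4be_al

theorem result (G : Type) [Group G] (hG : IsAutomatic G) (K : Type) [Field K] [NumberField K]
    (π : G →* (K ≃ᵃ[K] K)) (A : Subgroup G) [A.Normal]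
    (htr : ∀ a ∈ A, ∃ t : K, ∀ z : K, π a z = z + t) (hinj : ∀ a ∈ A, π a = 1 → a = 1) :
    (Subgroup.centralizer (A : Set G)).FiniteIndex := by
  by_cases hA : A = ⊥
  · have : Subgroup.centralizer (A : Set G) = ⊤ := by
      rw [Subgroup.centralizer_eq_top_iff_subset, hA]
      exact fun x hx => by
        rw [Subgroup.mem_bot.1 hx]
        exact Set.one_mem_center
    rw [this]
    infer_instance
  have hπ : ∀ g z, π g z = (π g 1 - π g 0) * z + π g 0 := by
    intro g z
    have e : ∀ w : K, π g w = (π g).linear w + π g 0 := fun w => by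
      have := (π g).map_vadd 0 w
      rwa [vadd_eq_add, vadd_eq_add, add_zero] at this
    have e2 : (π g).linear z = z * (π g).linear 1 := by
      rw [← smul_eq_mul, ← map_smul, smul_eq_mul, mul_one]
    rw [e z, e 1, e2]
    ring
  have hmul : ∀ g h z, π (g * h) z = π g (π h z) := fun g h z => by rw [map_mul]; rfl
  have h : Aff (fun g => π g 1 - π g 0) (fun g => π g 0) A := by
    refine ⟨by simp, fun g h => ?_, fun g h => ?_, inferInstance, fun a ha => ?_⟩
    · rw [hmul, hmul, hπ g (π h 1), hπ g (π h 0)]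
      ring
    · rw [hmul, hπ g (π h 0)]
      ring
    · obtain ⟨t, ht⟩ := htr a ha
      rw [ht, ht]
      ring
  have hinj' : ∀ a ∈ A, π a 0 = 0 → a = 1 := fun a ha e => hinj a ha (by
    ext z
    have := h.lin_A a ha
    rw [hπ a z, this, e]
    simp)
  have main := nf_general hG h hinj' hA
  let L : G →* K := { toFun := fun g => π g 1 - π g 0, map_one' := h.lin_one, map_mul' := h.lin_mul }
  have : Group.FG G := by
    obtain ⟨B, _, f, -, -, h1, -⟩ := hG
    exact Group.fg_iff.2 ⟨_, h1, Set.finite_range f⟩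
  have : Finite L.toHomUnits.range := CommGroup.finite_of_fg_isMulTorsion _ (by
    rintro ⟨_, g, rfl⟩
    obtain ⟨n, hn, e⟩ := main g
    exact isOfFinOrder_iff_pow_eq_one.2 ⟨n, hn, Subtype.ext (Units.ext e)⟩)
  refine Subgroup.finiteIndex_of_le (H := L.toHomUnits.ker) fun g hg => ?_
  have hg1 : π g 1 - π g 0 = 1 := congrArg Units.val (MonoidHom.mem_ker.1 hg)
  rw [Subgroup.mem_centralizer_iff]
  intro a ha
  have h1 : g * a * g⁻¹ ∈ A := h.normal.conj_mem a ha g
  have h2 := hinj' (a⁻¹ * (g * a * g⁻¹)) (A.mul_mem (A.inv_mem ha) h1) (by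
    have e1 := h.tr_mul a⁻¹ (g * a * g⁻¹)
    have e2 := h.tr_mul a⁻¹ a
    have e3 := h.tr_conj g a ha
    have e4 := h.tr_one
    rw [inv_mul_cancel] at e2
    simp only [hg1, one_mul] at e1 e2 e3 e4
    rw [e1, e3, ← e2, e4])
  rw [inv_mul_eq_one, eq_mul_inv_iff_mul_eq] at h2
  exact h2

end Pool.Agent.Results.MP_2fb4be_al.AffineNormal
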