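import Mathlib
import Pool.Agent.Lib.MP_2fb4be_al.Am.Cor

/-!
An automatic group that is amenably conjugable, for instance amenable, is virtually abelian.
-/

set_option autoImplicit false

namespace Pool.Agent.Results.MP_2fb4be_al.AmenableHosts

open Pool.Agent.Lib.MP_2fb4be_al

theorem result (G : Type) [Group G] (hG : IsAutomatic G) (hA : AmenablyConjugable G) :
    ∃ H : Subgroup G, H.FiniteIndex ∧ ∀ a ∈ H, ∀ b ∈ H, a * b = b * a :=
  Am.virt_abelian hG hA

end Pool.Agent.Results.MP_2fb4be_al.AmenableHosts
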