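import Mathlib
import Pool.Agent.Lib.MP_2fb4be_al.FD.RelMain

/-!
An element of an automatic group that satisfies an unbalanced Baumslag-Solitar relation is not seen
by any finite-dimensional data: its image under an equivariant Lipschitz map to a group in the
relative hierarchy `RH` has finite order.
-/

set_option autoImplicit false

namespace Pool.Agent.Results.MP_2fb4be_al.CoarseHosts

open Pool.Agent.Lib.MP_2fb4be_al

theorem result (G : Type) [Group G] (hG : IsAutomatic G) (x y : G) (p q : ℤ) (hpq : |p| ≠ |q|)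
    (h : y * x ^ p * y⁻¹ = x ^ q) (Γ : Type) [Group Γ] (ξ : Γ) (c : G → Γ)
    (h1 : ∀ g, c (x * g) = ξ * c g)
    (h2 : ∀ s, (Set.range fun g => (c g)⁻¹ * c (g * s)).Finite)
    (k : Type) [CommRing k] [IsDomain k]
    (hΓ : RH k Γ {z | ∃ n : ℤ, n ≠ 0 ∧ IsConj (ξ ^ n) z}) : IsOfFinOrder ξ :=
  Sol.rel_bs (Sol.combable_of_automatic hG) x y p q hpq h ξ c h1 h2 k hΓ

end Pool.Agent.Results.MP_2fb4be_al.CoarseHosts
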